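import Pool.Agent.H64.EV.Targets

/-!
# Row CAS of the board evn_modules: the Casimir operator
-/

set_option autoImplicit false

namespace Pool.Agent.H12.EV

open Matrix Pool.Agent.H64.CC Pool.Agent.H2.NL Pool.Agent.H64.EV

section

variable {K : Type} [Field K]

/-- the equation for the value `s` -/
def Hy (n : ℕ) (X : List Bool → K) (s : Bool) : Prop :=
  ∀ σ : List Bool, σ.length = n → ∑ i ∈ Finset.range n,
    (if σ.getD i s = !s then X (σ.set i s) else 0) = 0

/-- the number of entries equal to `s` -/
def ct (n : ℕ) (s : Bool) (σ : List Bool) : K :=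
  ∑ j ∈ Finset.range n, if σ.getD j (!s) = s then 1 else 0

/-- the double sum -/
def DD (n : ℕ) (X : List Bool → K) (s : Bool) (σ : List Bool) : K :=
  ∑ j ∈ Finset.range n, ∑ i ∈ Finset.range n,
    if σ.getD j (!s) = s then (if σ.getD i s = !s then X ((σ.set j (!s)).set i s) else 0) else 0

lemma getD_lt (σ : List Bool) {i : ℕ} (hi : i < σ.length) (a b : Bool) :
    σ.getD i a = σ.getD i b := by
  rw [List.getD_eq_getElem _ _ hi, List.getD_eq_getElem _ _ hi]

lemma getD_set_self (σ : List Bool) {i : ℕ} (hi : i < σ.length) (a b : Bool) :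
    (σ.set i a).getD i b = a := by
  rw [List.getD_eq_getElem _ _ (by simpa using hi), List.getElem_set_self]

lemma getD_set_ne (σ : List Bool) {i j : ℕ} (h : j ≠ i) (a b : Bool) :
    (σ.set j a).getD i b = σ.getD i b := by
  rw [List.getD_eq_getElem?_getD, List.getD_eq_getElem?_getD, List.getElem?_set_ne h]

lemma set_same (σ : List Bool) {i : ℕ} (hi : i < σ.length) {a b : Bool}
    (h : σ.getD i b = a) : σ.set i a = σ := by
  rw [List.getD_eq_getElem _ _ hi] at h
  rw [← h]
  exact List.set_getElem_self hi

lemma wt_one {n : ℕ} {X : List Bool → K} {s : Bool} (h : Hy n X s) (σ : List Bool)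
    (hσ : σ.length = n) : ct n s σ * X σ + DD n X s σ = 0 := by
  unfold ct DD
  rw [Finset.sum_mul, ← Finset.sum_add_distrib]
  apply Finset.sum_eq_zero
  intro j hj
  rw [Finset.mem_range] at hj
  by_cases hs : σ.getD j (!s) = s
  · simp only [if_pos hs, one_mul]
    have h1 := h (σ.set j (!s)) (by simpa using hσ)
    refine Eq.trans ?_ h1
    have h2 : X σ = ∑ i ∈ Finset.range n, if i = j then X σ else 0 := by
      rw [Finset.sum_ite_eq' (Finset.range n) j (fun _ => X σ), if_pos (Finset.mem_range.2 hj)]
    conv_lhs => rw [h2]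
    rw [← Finset.sum_add_distrib]
    refine Finset.sum_congr rfl fun i hi => ?_
    rw [Finset.mem_range] at hi
    by_cases hij : i = j
    · subst hij
      have h3 : σ.getD i s = s := by
        rw [getD_lt σ (by omega) s (!s)]
        exact hs
      have h4 : ¬ (σ.getD i s = !s) := by
        rw [h3]
        cases s <;> simp
      rw [if_pos rfl, if_neg h4, if_pos (getD_set_self σ (by omega) _ _), List.set_set,
        set_same σ (by omega) hs, add_zero]
    · rw [if_neg hij, zero_add, getD_set_ne σ (Ne.symm hij)]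
  · simp only [if_neg hs, zero_mul, Finset.sum_const_zero, add_zero]

lemma DD_symm (n : ℕ) (X : List Bool → K) (s : Bool) (σ : List Bool) :
    DD n X (!s) σ = DD n X s σ := by
  unfold DD
  rw [Finset.sum_comm]
  refine Finset.sum_congr rfl fun j _ => Finset.sum_congr rfl fun i _ => ?_
  rw [Bool.not_not]
  by_cases h1 : σ.getD j (!s) = s
  · by_cases h2 : σ.getD i s = !s
    · rw [if_pos h1, if_pos h2, if_pos h2, if_pos h1]
      have hij : i ≠ j := by
        rintro rfl
        by_cases hi : i < σ.length
        · rw [getD_lt σ hi s (!s), h1] at h2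
          cases s <;> simp at h2
        · rw [List.getD_eq_default _ _ (not_lt.1 hi)] at h2
          cases s <;> simp at h2
      rw [List.set_comm _ _ hij]
    · simp only [if_neg h2, ite_self]
  · by_cases h2 : σ.getD i s = !s
    · rw [if_neg h1, if_pos h2, if_neg h1]
    · simp only [if_neg h2, if_neg h1]

lemma ct_add (n : ℕ) (s : Bool) (σ : List Bool) (hσ : σ.length = n) :
    ct (K := K) n s σ + ct n (!s) σ = n := by
  unfold ct
  rw [← Finset.sum_add_distrib]
  have h : ∀ j ∈ Finset.range n, ((if σ.getD j (!s) = s then (1 : K) else 0) +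
      if σ.getD j (!(!s)) = !s then (1 : K) else 0) = 1 := by
    intro j hj
    rw [Finset.mem_range] at hj
    rw [getD_lt σ (by omega : j < σ.length) (!(!s)) (!s)]
    by_cases h1 : σ.getD j (!s) = s
    · have h2 : ¬ (σ.getD j (!s) = !s) := by
        rw [h1]
        cases s <;> simp
      rw [if_pos h1, if_neg h2, add_zero]
    · have h2 : σ.getD j (!s) = !s := by
        revert h1
        cases s <;> cases σ.getD j _ <;> simp
      rw [if_neg h1, if_pos h2, zero_add]
  rw [Finset.sum_congr rfl h]
  simp

lemma wt_two [CharZero K] {k : ℕ} {X : List Bool → K} (h : ∀ s, Hy (2 * k) X s) (s : Bool)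
    (σ : List Bool) (hσ : σ.length = 2 * k) : ct (2 * k) s σ * X σ = k * X σ := by
  have h1 := wt_one (h s) σ hσ
  have h2 := wt_one (h (!s)) σ hσ
  rw [DD_symm] at h2
  have h3 := ct_add (K := K) (2 * k) s σ hσ
  push_cast at h3
  have h4 : (2 : K) * (ct (2 * k) s σ * X σ) = 2 * (k * X σ) := by
    linear_combination h1 - h2 + h3 * X σ
  exact mul_left_cancel₀ two_ne_zero h4

end

theorem pf_CAS : T_CAS := by
  intro K _ _ k X hk hE hF s l hl
  have hH : ∀ s, Hy (2 * k) X s := by
    intro s
    cases s
    · exact hF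
    · exact hE
  have h1 := wt_two hH s (s :: l) (by simpa using hl)
  have h2 := hH s ((!s) :: l) (by simpa using hl)
  have hn : 2 * k = (2 * k - 1) + 1 := by omega
  have h3 : ct (K := K) (2 * k) s (s :: l) = ct (2 * k - 1) s l + 1 := by
    unfold ct
    rw [hn, Finset.sum_range_succ']
    simp
  rw [hn, Finset.sum_range_succ'] at h2
  have h4 : (((!s) :: l).getD 0 s = !s) := rfl
  rw [if_pos h4] at h2
  have h5 : ((!s) :: l).set 0 s = s :: l := rfl
  rw [h5] at h2
  have h6 : ∑ i ∈ Finset.range (2 * k - 1), X (l.getD i s :: l.set i s) =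
      ∑ i ∈ Finset.range (2 * k - 1), (if ((!s) :: l).getD (i + 1) s = !s then
        X (((!s) :: l).set (i + 1) s) else 0) + ct (2 * k - 1) s l * X (s :: l) := by
    unfold ct
    rw [Finset.sum_mul, ← Finset.sum_add_distrib]
    refine Finset.sum_congr rfl fun i hi => ?_
    rw [Finset.mem_range] at hi
    have hi' : i < l.length := by omega
    rw [List.getD_cons_succ, List.set_cons_succ, getD_lt l hi' (!s) s]
    by_cases h7 : l.getD i s = s
    · have h8 : ¬ (l.getD i s = !s) := by
        rw [h7]
        cases s <;> simp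
      rw [if_neg h8, if_pos h7, h7, set_same l hi' h7]
      ring
    · have h8 : l.getD i s = !s := by
        revert h7
        cases s <;> cases l.getD i _ <;> simp
      rw [if_pos h8, if_neg h7, h8]
      ring
  rw [h6]
  rw [h3] at h1
  linear_combination h2 + h1

end Pool.Agent.H12.EV
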