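import Pool.Agent.H64.EV.Targets

/-!
# Row OER of the board evn_modules: the relation of the pairings, of exchanges and of contractions

Model: Pool/Agent/H10/NL/STR.lean.
-/

set_option autoImplicit false

namespace Pool.Agent.H12.EV

open Matrix Pool.Agent.H64.CC Pool.Agent.H2.NL Pool.Agent.H64.EV

section

variable {K : Type} [Field K] {I : Type} [Fintype I] [DecidableEq I] (F : OForm K I)

omit [DecidableEq I] [Fintype I] in
private theorem M4_add (t t' : List I → K) : F.M4 (t + t') = F.M4 t + F.M4 t' := by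
  ext x y
  simp only [OForm.M4, Matrix.of_apply, Matrix.add_apply, Pi.add_apply, add_mul]

omit [DecidableEq I] [Fintype I] in
private theorem M4_smul [CharZero K] (q : ℚ) (t : List I → K) :
    F.M4 (q • t) = (q : K) • F.M4 t := by
  ext x y
  simp only [OForm.M4, Matrix.of_apply, Matrix.smul_apply, Pi.smul_apply, smul_eq_mul]
  rw [Rat.smul_def, mul_assoc]

private theorem mul_Sx (G : Matrix (I × I) (I × I) K) (x : I × I) (a b : I) :
    (G * F.Sx) x (a, b) = G x (b, a) * ks K (F.o a) (F.o b) := by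
  rw [Matrix.mul_apply, Finset.sum_eq_single (b, a)]
  · unfold OForm.Sx
    rw [Matrix.of_apply, if_pos ⟨rfl, rfl⟩, ks_comm]
  · intro z _ hz
    unfold OForm.Sx
    rw [Matrix.of_apply, if_neg, mul_zero]
    rintro ⟨h3, h4⟩
    exact hz (Prod.ext h3 h4)
  · intro h
    exact absurd (Finset.mem_univ _) h

private theorem Sx_mul (G : Matrix (I × I) (I × I) K) (y : I × I) (a b : I) :
    (F.Sx * G) (a, b) y = G (b, a) y * ks K (F.o a) (F.o b) := by
  rw [Matrix.mul_apply, Finset.sum_eq_single (b, a)]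
  · unfold OForm.Sx
    rw [Matrix.of_apply, if_pos ⟨rfl, rfl⟩, mul_comm]
  · intro z _ hz
    unfold OForm.Sx
    rw [Matrix.of_apply, if_neg, zero_mul]
    rintro ⟨h3, h4⟩
    exact hz (Prod.ext h4.symm h3.symm)
  · intro h
    exact absurd (Finset.mem_univ _) h

omit [DecidableEq I] in
private theorem str2_sub (G G' : Matrix (I × I) (I × I) K) :
    F.str2 (G - G') = F.str2 G - F.str2 G' := by
  unfold OForm.str2
  rw [← Finset.sum_sub_distrib]
  exact Finset.sum_congr rfl fun x _ => by rw [Matrix.sub_apply]; ring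

private theorem str2_cyc (G : Matrix (I × I) (I × I) K) :
    F.str2 (F.Sx * G) = F.str2 (G * F.Sx) := by
  unfold OForm.str2
  rw [← (Equiv.prodComm I I).sum_comp]
  refine Finset.sum_congr rfl fun x _ => ?_
  obtain ⟨a, b⟩ := x
  show sg K (F.o b) * sg K (F.o a) * (F.Sx * G) (b, a) (b, a) =
    sg K (F.o a) * sg K (F.o b) * (G * F.Sx) (a, b) (a, b)
  rw [Sx_mul, mul_Sx, ks_comm]
  ring

/-- the sums in the invariance -/
private theorem sum_T1 (p q a : I) (f : I → K) :
    ∑ b, F.T p q a b * f b = (if a = p then F.c q * f (F.st q) else 0) -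
      (if a = q then F.c p * f (F.st p) else 0) := by
  have h : ∀ q : I, ∑ b, F.η q b * f b = F.c q * f (F.st q) := by
    intro q
    rw [Finset.sum_eq_single (F.st q)]
    · rw [OForm.η, Matrix.of_apply, if_pos rfl]
    · intro b _ hb
      rw [OForm.η, Matrix.of_apply, if_neg hb, zero_mul]
    · intro h
      exact absurd (Finset.mem_univ _) h
  have h1 : ∀ b, F.T p q a b * f b = (if a = p then F.η q b * f b else 0) -
      (if a = q then F.η p b * f b else 0) := by
    intro b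
    rw [OForm.T, Matrix.of_apply]
    by_cases h2 : a = p <;> by_cases h3 : a = q <;> simp [h2, h3, sub_mul]
  rw [Finset.sum_congr rfl fun b _ => h1 b, Finset.sum_sub_distrib]
  congr 1
  · by_cases h2 : a = p
    · simp only [if_pos h2]; exact h q
    · simp only [if_neg h2]; exact Finset.sum_const_zero
  · by_cases h2 : a = q
    · simp only [if_pos h2]; exact h p
    · simp only [if_neg h2]; exact Finset.sum_const_zero

end

theorem pf_OER (hODI : T_ODI) (hOMV : T_OMV) (hOMC : T_OMC) (hONN : T_ONN) (hOHT : T_OHT)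
    (hOKE : T_OKE) (hOMU : T_OMU) (hOUN : T_OUN) (_hOPA : T_OPA) : T_OER := by
  intro K _ _ V P _ _ _ _ F A hS k x y hk hx hy
  have hmv : ∀ i ∈ Finset.range (2 * k - 1), mv F.o (i + 1) x ∈ A k ∧
      rv (mv F.o (i + 1) y) ∈ A k := by
    intro i hi
    rw [Finset.mem_range] at hi
    obtain ⟨h1, h2, -⟩ := hOMV K (V ⊕ P) F A hS.calculus k (i + 1) x y (by omega)
    exact ⟨h1 hx, h2 hy⟩
  have hm1 := (hOMC K (V ⊕ P) F A hS.calculus k x y hk hx hy).1
  -- the second tensor
  have hm2 : four (fun a b e d => ∑ i ∈ Finset.range (2 * k - 1),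
      F.C2 (2 * k) (mv F.o (i + 1) x) (mv F.o (i + 1) y) a b e d) ∈ A 2 := by
    have h1 : four (fun a b e d => ∑ i ∈ Finset.range (2 * k - 1),
        F.C2 (2 * k) (mv F.o (i + 1) x) (mv F.o (i + 1) y) a b e d) =
        ∑ i ∈ Finset.range (2 * k - 1),
          four (F.C2 (2 * k) (mv F.o (i + 1) x) (mv F.o (i + 1) y)) := by
      funext w
      rw [Finset.sum_apply]
      match w with
      | [] => exact Finset.sum_const_zero.symm
      | [_] => exact Finset.sum_const_zero.symm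
      | [_, _] => exact Finset.sum_const_zero.symm
      | [_, _, _] => exact Finset.sum_const_zero.symm
      | [_, _, _, _] => rfl
      | _ :: _ :: _ :: _ :: _ :: _ => exact Finset.sum_const_zero.symm
    rw [h1]
    exact (A 2).sum_mem fun i hi =>
      (hOMC K (V ⊕ P) F A hS.calculus k _ _ hk (hmv i hi).1 (hmv i hi).2).2
  obtain ⟨t, ht, hi, hii, hiii⟩ := hOHT K (V ⊕ P) F A hS.calculus
    (fun a d => F.C1 (2 * k) x y a d) _ hm1 hm2
  obtain ⟨⟨t1, ht1, h1⟩, ⟨ts, hts, hs⟩, hss⟩ := hOUN K (V ⊕ P) F A hS.calculus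
  -- the columns of the vanishing part
  have hcol : ∀ z (p q : V), F.M4 t z (Sum.inl p, Sum.inl q) -
      F.M4 t z (Sum.inl q, Sum.inl p) = 0 := by
    intro z p q
    rw [hi z (Sum.inl p) (Sum.inl q) (hS.o_V p) (hS.o_V q)]
    have h2 := hODI K V P F A hS k x y hk hx p q z.1 z.2
    rw [sum_T1 F (Sum.inl p) (Sum.inl q) z.1 (fun b => F.C1 (2 * k) x y b z.2)] at h2
    have h3 : ∀ i, ∑ e, ∑ b, F.c e * F.T (Sum.inl p) (Sum.inl q) e b *
        F.C2 (2 * k) (mv F.o (i + 1) x) (mv F.o (i + 1) y) z.1 b (F.st e) z.2 =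
        F.c (Sum.inl p) * (F.c (Sum.inl q) * F.C2 (2 * k) (mv F.o (i + 1) x)
          (mv F.o (i + 1) y) z.1 (F.st (Sum.inl q)) (F.st (Sum.inl p)) z.2) -
        F.c (Sum.inl q) * (F.c (Sum.inl p) * F.C2 (2 * k) (mv F.o (i + 1) x)
          (mv F.o (i + 1) y) z.1 (F.st (Sum.inl p)) (F.st (Sum.inl q)) z.2) := by
      intro i
      have h3 : ∀ e, ∑ b, F.c e * F.T (Sum.inl p) (Sum.inl q) e b *
          F.C2 (2 * k) (mv F.o (i + 1) x) (mv F.o (i + 1) y) z.1 b (F.st e) z.2 =
          (if e = Sum.inl p then F.c e * (F.c (Sum.inl q) *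
            F.C2 (2 * k) (mv F.o (i + 1) x) (mv F.o (i + 1) y) z.1 (F.st (Sum.inl q))
              (F.st e) z.2) else 0) -
          (if e = Sum.inl q then F.c e * (F.c (Sum.inl p) *
            F.C2 (2 * k) (mv F.o (i + 1) x) (mv F.o (i + 1) y) z.1 (F.st (Sum.inl p))
              (F.st e) z.2) else 0) := by
        intro e
        have h4 := sum_T1 F (Sum.inl p) (Sum.inl q) e
          (fun b => F.C2 (2 * k) (mv F.o (i + 1) x) (mv F.o (i + 1) y) z.1 b (F.st e) z.2)
        have h5 : ∑ b, F.c e * F.T (Sum.inl p) (Sum.inl q) e b *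
            F.C2 (2 * k) (mv F.o (i + 1) x) (mv F.o (i + 1) y) z.1 b (F.st e) z.2 =
            F.c e * ∑ b, F.T (Sum.inl p) (Sum.inl q) e b *
              F.C2 (2 * k) (mv F.o (i + 1) x) (mv F.o (i + 1) y) z.1 b (F.st e) z.2 := by
          rw [Finset.mul_sum]
          exact Finset.sum_congr rfl fun b _ => by ring
        rw [h5, h4, mul_sub]
        congr 1
        · by_cases h6 : e = Sum.inl p
          · rw [if_pos h6, if_pos h6]
          · rw [if_neg h6, if_neg h6, mul_zero]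
        · by_cases h6 : e = Sum.inl q
          · rw [if_pos h6, if_pos h6]
          · rw [if_neg h6, if_neg h6, mul_zero]
      rw [Finset.sum_congr rfl fun e _ => h3 e, Finset.sum_sub_distrib, Finset.sum_ite_eq',
        Finset.sum_ite_eq', if_pos (Finset.mem_univ _), if_pos (Finset.mem_univ _)]
    rw [Finset.sum_congr rfl fun i _ => h3 i, Finset.sum_sub_distrib, ← Finset.mul_sum,
      ← Finset.mul_sum, ← Finset.mul_sum, ← Finset.mul_sum] at h2
    refine Eq.trans ?_ h2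
    ring
  -- the antisymmetrization
  have hG : ∃ t' ∈ A 2, F.M4 t' = (1 - F.Sx) * F.M4 t * (1 - F.Sx) := by
    have e1 : F.M4 (t1 + (-1 : ℚ) • ts) = 1 - F.Sx := by
      rw [M4_add, M4_smul, h1, hs]
      push_cast
      rw [neg_one_smul, sub_eq_add_neg]
    have m1 : t1 + (-1 : ℚ) • ts ∈ A 2 := (A 2).add_mem ht1 ((A 2).smul_mem _ hts)
    obtain ⟨t2, ht2, h2⟩ := hOMU K (V ⊕ P) F A hS.calculus _ m1 t ht
    obtain ⟨t3, ht3, h3⟩ := hOMU K (V ⊕ P) F A hS.calculus t2 ht2 _ m1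
    exact ⟨t3, ht3, by rw [h3, h2, e1]⟩
  obtain ⟨t', ht', hg⟩ := hG
  have q1 : (1 - F.Sx) * F.Sx = -(1 - F.Sx) := by
    rw [sub_mul, one_mul, hss]
    abel
  have q2 : F.Sx * (1 - F.Sx) = -(1 - F.Sx) := by
    rw [mul_sub, mul_one, hss]
    abel
  have k1 : F.M4 t' * F.Sx = -F.M4 t' := by
    rw [hg, Matrix.mul_assoc, q1, Matrix.mul_neg]
  have k2 : F.Sx * F.M4 t' = -F.M4 t' := by
    rw [hg, ← Matrix.mul_assoc, ← Matrix.mul_assoc, q2, Matrix.neg_mul, Matrix.neg_mul]
  have k3 : ∀ z (p q : V), F.M4 t' z (Sum.inl p, Sum.inl q) = 0 := by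
    intro z p q
    have e1 : ∀ w, (F.M4 t * (1 - F.Sx)) w (Sum.inl p, Sum.inl q) = 0 := by
      intro w
      rw [Matrix.mul_sub, Matrix.mul_one, Matrix.sub_apply, mul_Sx, hS.o_V p, hS.o_V q,
        ks_self, sg_false, mul_one]
      exact hcol w p q
    rw [hg, Matrix.mul_assoc, Matrix.mul_apply]
    exact Finset.sum_eq_zero fun w _ => by rw [e1 w, mul_zero]
  have hkey := hOKE K V P F A hS t' ht' k1 k2 k3
  have e2 : F.str2 (F.M4 t') = 2 * F.str2 (F.M4 t) - 2 * F.str2 (F.M4 t * F.Sx) := by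
    rw [hg]
    have e3 : (1 - F.Sx) * F.M4 t * (1 - F.Sx) =
        (F.M4 t - F.M4 t * F.Sx) - (F.Sx * F.M4 t - F.Sx * (F.M4 t * F.Sx)) := by
      rw [Matrix.mul_assoc, Matrix.mul_sub, Matrix.mul_one, Matrix.sub_mul, Matrix.one_mul,
        Matrix.mul_sub]
    rw [e3, str2_sub, str2_sub, str2_sub, str2_cyc, str2_cyc F (F.M4 t * F.Sx),
      Matrix.mul_assoc, hss, Matrix.mul_one]
    ring
  rw [e2] at hkey
  have e4 : F.str2 (F.M4 t) = F.str2 (F.M4 t * F.Sx) := by
    have h6 : (2 : K) * (F.str2 (F.M4 t) - F.str2 (F.M4 t * F.Sx)) = 0 := by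
      linear_combination hkey
    have h7 := (mul_eq_zero.1 h6).resolve_left two_ne_zero
    exact sub_eq_zero.1 h7
  -- the pairings
  have hN1 := (hONN K (V ⊕ P) F (2 * k) x y (by omega)).1
  have s1 : ∑ a, ∑ b, ks K (F.o a) (F.o b) * F.c a * F.c b *
      (∑ i ∈ Finset.range (2 * k - 1), F.C2 (2 * k) (mv F.o (i + 1) x) (mv F.o (i + 1) y)
        a b (F.st a) (F.st b)) =
      ∑ i ∈ Finset.range (2 * k - 1),
        F.Pr (2 * k) (sw F.o 0 (mv F.o (i + 1) x)) (mv F.o (i + 1) y) := by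
    have h2 : ∀ i ∈ Finset.range (2 * k - 1),
        F.Pr (2 * k) (sw F.o 0 (mv F.o (i + 1) x)) (mv F.o (i + 1) y) =
        ∑ a, ∑ b, ks K (F.o a) (F.o b) * F.c a * F.c b *
          F.C2 (2 * k) (mv F.o (i + 1) x) (mv F.o (i + 1) y) a b (F.st a) (F.st b) :=
      fun i _ => ((hONN K (V ⊕ P) F (2 * k) _ _ (by omega)).2.1).symm
    rw [Finset.sum_congr rfl h2]
    simp only [Finset.mul_sum]
    rw [Finset.sum_comm (s := Finset.range (2 * k - 1))]
    refine Finset.sum_congr rfl fun a _ => ?_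
    rw [Finset.sum_comm]
  have s2 : ∑ a, ∑ d, F.c a * F.c (F.st d) *
      (∑ i ∈ Finset.range (2 * k - 1), F.C2 (2 * k) (mv F.o (i + 1) x) (mv F.o (i + 1) y)
        a (F.st a) (F.st d) d) =
      ∑ i ∈ Finset.range (2 * k - 1),
        F.Pr (2 * k - 2) (con F.η 0 (mv F.o (i + 1) x)) (F.con' (mv F.o (i + 1) y)) := by
    have h2 : ∀ i ∈ Finset.range (2 * k - 1),
        F.Pr (2 * k - 2) (con F.η 0 (mv F.o (i + 1) x)) (F.con' (mv F.o (i + 1) y)) =
        ∑ a, ∑ d, F.c a * F.c (F.st d) *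
          F.C2 (2 * k) (mv F.o (i + 1) x) (mv F.o (i + 1) y) a (F.st a) (F.st d) d :=
      fun i _ => ((hONN K (V ⊕ P) F (2 * k) _ _ (by omega)).2.2).symm
    rw [Finset.sum_congr rfl h2]
    simp only [Finset.mul_sum]
    rw [Finset.sum_comm (s := Finset.range (2 * k - 1))]
    refine Finset.sum_congr rfl fun a _ => ?_
    rw [Finset.sum_comm]
  rw [hii, hiii] at e4
  rw [s1, s2, hN1] at e4
  rw [Finset.sum_sub_distrib]
  linear_combination e4

end Pool.Agent.H12.EV
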